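import Pool.Agent.Helper82.PN.St

/-! # Project PN, module ADA: the densities have dimension one -/

set_option autoImplicit false

noncomputable section

namespace Pool.Agent.Helper74.PN

open Finset Filter Topology
open Pool.Agent.Helper82.PN
open Pool.Agent.Helper15.AB (StDB StMT)
open Pool.Agent.Helper9.TW (gm Qs fm StMER StC9)
open Pool.Agent.Helper18.TR (StLevel StBonf StFLmain)
open Pool.Agent.Helper93.KS (bq Pq SW bmq idq ejq mg Gb Vq AD UQ LQ HU HL FSx StBXQ StT1 StCEL StBMQ)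
open Pool.Agent.Helper60.GP (StM2)
open Pool.Agent.Helper30.EL (cs StT1E StSWB)

private theorem card_pf (D : ℕ) (hD : 1 ≤ D) : (D.primeFactors.card : ℝ) * Real.log 2 ≤ Real.log D := by
  have h1 : 2 ^ D.primeFactors.card ≤ D := by
    calc 2 ^ D.primeFactors.card = ∏ _p ∈ D.primeFactors, 2 := by rw [prod_const]
      _ ≤ ∏ p ∈ D.primeFactors, p := prod_le_prod' fun p hp => (Nat.prime_of_mem_primeFactors hp).two_le
      _ ≤ D := Nat.le_of_dvd hD (Nat.prod_primeFactors_dvd D)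
  have h2 : ((2 : ℝ) ^ D.primeFactors.card) ≤ (D : ℝ) := by exact_mod_cast h1
  have h3 := Real.log_le_log (by positivity) h2
  rwa [Real.log_pow] at h3

private theorem term_le (hR : StRTA) (n p : ℕ) (X : ℝ) (hX : 7 ≤ X) (hp : p.Prime) (hXp : X ≤ p) :
    gn n p ≤ 1 / (p : ℝ) + (jacobiSym (-(3 : ℤ)) p : ℝ) / p + (if p ∣ n then 1 / X else 0) := by
  obtain ⟨-, -, r3, r4, -⟩ := hR n p hp
  have hp7 : (7 : ℝ) ≤ p := hX.trans hXp
  have hp7' : 7 ≤ p := by exact_mod_cast hp7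
  have hp0 : (0 : ℝ) < p := by linarith
  have hX0 : (0 : ℝ) < X := by linarith
  have hJ : (-1 : ℝ) ≤ (jacobiSym (-(3 : ℤ)) p : ℝ) := by
    rcases jacobiSym.trichotomy (-(3 : ℤ)) p with h | h | h <;> rw [h] <;> norm_num
  by_cases hd : p ∣ n
  · rw [if_pos hd]
    have hg : gn n p = 1 / p := by
      unfold gn
      rw [r3 hp7' hd, Nat.cast_one]
    have e3 : 1 / (p : ℝ) ≤ 1 / X := div_le_div_of_nonneg_left (by norm_num) hX0 hXp
    have e4 : 0 ≤ 1 / (p : ℝ) + (jacobiSym (-(3 : ℤ)) p : ℝ) / p := by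
      rw [← add_div]
      apply div_nonneg _ hp0.le
      linarith
    rw [hg]
    linarith
  · rw [if_neg hd]
    have h3 := r4 hp7' hd
    have h4 : (rn n p : ℝ) = 1 + (jacobiSym (-(3 : ℤ)) p : ℝ) := by exact_mod_cast h3
    unfold gn
    rw [h4, add_div, add_zero]

theorem hADA (hR : StRTA) (hM : StM2) (hS : StSWB) : StADA := by
  intro u i η hu hi hη
  obtain ⟨a₁, ha₁⟩ := hS 1 u i (η / 4) hu hi (by positivity)
  set ω : ℝ := 1 / (100 * u) with hω
  have hu0 : (0 : ℝ) < u := by exact_mod_cast hu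
  have hω0 : 0 < ω := by positivity
  have hi1 : (1 : ℝ) ≤ (i : ℝ) := by exact_mod_cast hi
  have ha : 0 < (i : ℝ) * ω := mul_pos (by linarith) hω0
  have hab : (i : ℝ) * ω ≤ ((i : ℝ) + 1) * ω := by nlinarith
  obtain ⟨z₀, hz₀⟩ := hM _ _ ha hab (η / 4) (by positivity)
  have hXt : Tendsto (fun n : ℕ => (n : ℝ) ^ ((i : ℝ) * ω)) atTop atTop :=
    (tendsto_rpow_atTop ha).comp tendsto_natCast_atTop_atTop
  have h7 : ∀ᶠ n : ℕ in atTop, (7 : ℝ) ≤ (n : ℝ) ^ ((i : ℝ) * ω) := hXt.eventually_ge_atTop 7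
  have hz : ∀ᶠ n : ℕ in atTop, z₀ ≤ (n : ℝ) := tendsto_natCast_atTop_atTop.eventually_ge_atTop z₀
  have hl : ∀ᶠ n : ℕ in atTop, (3 : ℝ) ≤ Real.log n :=
    (Real.tendsto_log_atTop.comp tendsto_natCast_atTop_atTop).eventually_ge_atTop 3
  have h4 : ∀ᶠ n : ℕ in atTop, 2 / Real.log 2 * (Real.log n / (n : ℝ) ^ ((i : ℝ) * ω)) ≤ η / 4 := by
    have h1 : Tendsto (fun x : ℝ => Real.log x / x ^ ((i : ℝ) * ω)) atTop (𝓝 0) :=
      (isLittleO_log_rpow_atTop ha).tendsto_div_nhds_zero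
    have h2 : Tendsto (fun n : ℕ => 2 / Real.log 2 * (Real.log n / (n : ℝ) ^ ((i : ℝ) * ω))) atTop (𝓝 0) := by
      have := (h1.comp tendsto_natCast_atTop_atTop).const_mul (2 / Real.log 2)
      rwa [mul_zero] at this
    exact (h2.eventually_lt_const (by positivity : (0 : ℝ) < η / 4)).mono fun n hn => hn.le
  have hall : ∀ᶠ a : ℕ in atTop, ∀ n : ℕ, 1 ≤ n → n ≤ a ^ 2 → Gb a ω (gn n) i ≤ gm i + η := by
    filter_upwards [h7, hz, hl, h4, eventually_ge_atTop 7, eventually_ge_atTop a₁]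
      with a h7 hz hl h4 ha7 haa n hn1 hn2
    have h := hz₀ a hz
    have hlog : Real.log (((i : ℝ) + 1) * ω / ((i : ℝ) * ω)) = gm i := by
      unfold gm
      rw [mul_div_mul_right _ _ hω0.ne']
    rw [hlog] at h
    have h1 : ∑ p ∈ bq a ω i, 1 / (p : ℝ) ≤ gm i + η / 4 := by
      have := (abs_le.1 h).2
      unfold bq
      linarith
    set X : ℝ := (a : ℝ) ^ ((i : ℝ) * ω) with hX
    have hX0 : 0 < X := by linarith
    have hsum : Gb a ω (gn n) i ≤ ∑ p ∈ bq a ω i, (1 / (p : ℝ) + (jacobiSym (-(3 : ℤ)) p : ℝ) / p +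
        (if p ∣ n then 1 / X else 0)) := by
      unfold Gb
      refine sum_le_sum fun p hp => ?_
      unfold bq at hp
      obtain ⟨_, hp1, hp2⟩ := mem_filter.1 hp
      exact term_le hR n p X h7 hp1 hp2
    rw [sum_add_distrib, sum_add_distrib] at hsum
    have hcs := (abs_le.1 (ha₁ a 3 haa (by norm_num) (by rw [pow_one]; exact_mod_cast hl))).2
    have hcs' : ∑ p ∈ bq a ω i, (jacobiSym (-(3 : ℤ)) p : ℝ) / p ≤ η / 4 := hcs
    have h6 : ∑ p ∈ bq a ω i, (if p ∣ n then 1 / X else 0) ≤ η / 4 := by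
      rw [← sum_filter, sum_const, nsmul_eq_mul]
      have hsub : (bq a ω i).filter (fun p => p ∣ n) ⊆ n.primeFactors := by
        intro p hp
        obtain ⟨hp1, hp2⟩ := mem_filter.1 hp
        unfold bq at hp1
        exact Nat.mem_primeFactors.2 ⟨(mem_filter.1 hp1).2.1, hp2, by omega⟩
      have hcard : (((bq a ω i).filter (fun p => p ∣ n)).card : ℝ) ≤ (n.primeFactors.card : ℝ) := by
        exact_mod_cast card_le_card hsub
      have hl2 : 0 < Real.log 2 := Real.log_pos (by norm_num)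
      have hpf := card_pf n hn1
      have hDa : Real.log n ≤ 2 * Real.log a := by
        have h1 : ((n : ℕ) : ℝ) ≤ (a : ℝ) ^ 2 := by exact_mod_cast hn2
        have h2 := Real.log_le_log (by exact_mod_cast hn1) h1
        rwa [Real.log_pow] at h2
      have hcd : (n.primeFactors.card : ℝ) ≤ 2 * Real.log a / Real.log 2 := by
        rw [le_div_iff₀ hl2]
        linarith
      calc (((bq a ω i).filter (fun p => p ∣ n)).card : ℝ) * (1 / X)
          ≤ (2 * Real.log a / Real.log 2) * (1 / X) :=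
            mul_le_mul_of_nonneg_right (hcard.trans hcd) (by positivity)
        _ = 2 / Real.log 2 * (Real.log a / X) := by
            field_simp
        _ ≤ η / 4 := h4
    linarith
  obtain ⟨a₀, ha₀⟩ := eventually_atTop.1 hall
  exact ⟨a₀, fun a n ha hn1 hn2 => ha₀ a ha n hn1 hn2⟩

end Pool.Agent.Helper74.PN
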